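import Pool.Agent.Helper45.PQ.StU

/-!
# Project PQ, module OBL (sets of pairwise non-perpendicular singular points meeting all generators)
-/

set_option autoImplicit false

open Module Classical
open scoped LinearAlgebra.Projectivization

namespace Pool.Agent.Helper11.PQ

open Pool.Agent.Helper45.PQ
open Pool.Agent.Helper53.PB

universe u v

/-- OBL -/
theorem hOBL : StOBL.{u, v} := by
  intro F _ _ V _ _ _ P k s hgen hnb T hs hpw hcard
  refine ⟨hs, ?_⟩
  have hle : ∀ U, P.Gen U → tt T U ≤ 1 := by
    intro U hU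
    unfold tt
    rw [Finset.card_le_one]
    intro x hx y hy
    rw [Finset.mem_filter] at hx hy
    by_contra hne
    exact hpw x hx.1 y hy.1 hne (hU.1.2 _ hx.2 _ hy.2)
  have hstep : ∀ U, P.Gen U → tt T U = 1 → ∀ N : Nb P U (Fin s), ∀ p, tt T (N.nb p) = 1 := by
    intro U hU htU N
    have hA := sumA N (n := k) (hgen U hU) hs
    rw [htU, hcard, Fintype.card_fin] at hA
    have h4 : (Finset.univ : Finset (Fin s × ℙ F (Dual F U))).card = s * geo (Nat.card F) (k + 1) := by
      rw [Finset.card_univ, Fintype.card_prod, Fintype.card_fin,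
        ← Finset.card_univ (α := ℙ F (Dual F U)), ← hgen U hU,
        ← pts_univ, card_pts, finrank_top, Subspace.dual_finrank_eq]
    have h5 : ∑ p, tt T (N.nb p) = ∑ p : Fin s × ℙ F (Dual F U), 1 := by
      rw [← Finset.card_eq_sum_ones, h4, geo_succ', Nat.mul_add]
      omega
    have h6 := (Finset.sum_eq_sum_iff_of_le (s := Finset.univ)
      (f := fun p => tt T (N.nb p)) (g := fun _ => 1) (fun p _ => hle _ (N.gen p))).1 h5
    intro p
    exact h6 p (Finset.mem_univ _)
  obtain ⟨z, hz⟩ : T.Nonempty := by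
    rw [← Finset.card_pos, hcard]
    omega
  obtain ⟨U0, hU0, hzU0⟩ := Pool.Agent.Helper53.PB.Polar.exists_gen_ge (span_ts (hs z hz))
  have hU01 : tt T U0 = 1 := by
    apply le_antisymm (hle U0 hU0)
    unfold tt
    rw [Nat.succ_le_iff, Finset.card_pos]
    exact ⟨z, Finset.mem_filter.2 ⟨hz, hzU0 (Submodule.mem_span_singleton_self _)⟩⟩
  intro U hU
  have key : ∀ n : ℕ, ∀ W, P.Gen W → tt T W = 1 →
      finrank F U ≤ finrank F (W ⊓ U : Submodule F V) + n → tt T U = 1 := by
    intro n
    induction n with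
    | zero =>
      intro W hW htW hfin
      have h1 : W ⊓ U = U := Submodule.eq_of_le_of_finrank_le inf_le_right (by omega)
      have h2 : U ≤ W := inf_eq_right.1 h1
      have h3 := hU.2 W hW.1 h2
      rw [← h3]
      exact htW
    | succ n ih =>
      intro W hW htW hfin
      by_cases hUW : U ≤ W
      · have h3 := hU.2 W hW.1 hUW
        rw [← h3]
        exact htW
      · obtain ⟨y, hyU, hyW⟩ := Set.not_subset.1 hUW
        obtain ⟨N⟩ := hnb W hW
        obtain ⟨p, hp, _⟩ := N.out y (hU.1.1 y hyU) hyW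
        apply ih (N.nb p) (N.gen p) (hstep W hW htW N p)
        have h1 : W ⊓ U < N.nb p ⊓ U := by
          rw [SetLike.lt_iff_le_and_exists]
          refine ⟨?_, y, ⟨hp, hyU⟩, fun h => hyW h.1⟩
          intro x hx
          refine ⟨?_, hx.2⟩
          have h2 := N.perp p y hp hyW ⟨x, hx.1⟩
          have h3 := N.inU p ⟨x, hx.1⟩
          exact h3.2 (h2.1 (hU.1.2 y hyU x hx.2))
        have h2 := Submodule.finrank_lt_finrank_of_lt h1
        omega
  have h1 := key (finrank F U) U0 hU0 hU01 (by omega)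
  have h2 : 0 < (T.filter (fun y => y.rep ∈ U)).card := by
    unfold tt at h1
    omega
  obtain ⟨y, hy⟩ := Finset.card_pos.1 h2
  rw [Finset.mem_filter] at hy
  exact ⟨y, hy.1, hy.2⟩


end Pool.Agent.Helper11.PQ
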